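import Pool.Agent.W809.ZQ.Stm

/-!
# Project ZQ: the abelian case, a character which is open at the identity
-/

set_option autoImplicit false

open Set Filter Topology

namespace Pool.Agent.W414.ZQ

open Pool.Agent.W809.ZQ

variable {n : ℕ}

theorem entry_mul (A B : U n) (i j : Fin n) :
    ((A * B : U n) : Mt n) i j = ∑ k, (A : Mt n) i k * (B : Mt n) k j := by
  rw [Submonoid.coe_mul, Matrix.mul_apply]

theorem continuous_entry (P : U n) (i j : Fin n) :
    Continuous (fun x : U n => ((P * x * P⁻¹ : U n) : Mt n) i j) := by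
  have h1 : Continuous (fun x : U n => (P * x * P⁻¹ : U n)) := by fun_prop
  have h2 : Continuous (fun x : U n => ((P * x * P⁻¹ : U n) : Mt n)) :=
    continuous_subtype_val.comp h1
  exact (continuous_apply j).comp ((continuous_apply i).comp h2)

theorem dg_mul {P x : U n} {i : Fin n}
    (hx : ∀ j : Fin n, i ≠ j → ((P * x * P⁻¹ : U n) : Mt n) i j = 0) (y : U n) :
    dg P (x * y) i = dg P x i * dg P y i := by
  unfold dg
  have e : P * (x * y) * P⁻¹ = (P * x * P⁻¹) * (P * y * P⁻¹) := by group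
  rw [e, entry_mul, Finset.sum_eq_single i]
  · intro k _ hk
    rw [hx k (Ne.symm hk), zero_mul]
  · intro h
    exact absurd (Finset.mem_univ i) h

theorem dg_one (P : U n) (i : Fin n) : dg P 1 i = 1 := by
  unfold dg
  have e : P * 1 * P⁻¹ = 1 := by group
  rw [e]
  change (1 : Mt n) i i = 1
  exact Matrix.one_apply_eq i

theorem dg_inv (P x : U n) (i : Fin n) : dg P x⁻¹ i = star (dg P x i) := by
  unfold dg
  have e : P * x⁻¹ * P⁻¹ = (P * x * P⁻¹)⁻¹ := by group
  rw [e]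
  rfl

theorem ab2 : S_AB2 := by
  intro n C P hD i hO hcl
  have hc : Continuous (fun x : U n => dg P x i) := continuous_entry P i i
  have hdiag : ∀ x ∈ closure (C : Set (U n)), ∀ j : Fin n, i ≠ j →
      ((P * x * P⁻¹ : U n) : Mt n) i j = 0 := by
    intro x hx j hj
    have h1 : IsClosed {x : U n | ((P * x * P⁻¹ : U n) : Mt n) i j = 0} :=
      isClosed_eq (continuous_entry P i j) continuous_const
    have h2 : (C : Set (U n)) ⊆ {x : U n | ((P * x * P⁻¹ : U n) : Mt n) i j = 0} :=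
      fun a ha => hD a ha i j hj
    exact closure_minimal h2 h1 hx
  have hmul : ∀ x ∈ closure (C : Set (U n)), ∀ y : U n,
      dg P (x * y) i = dg P x i * dg P y i := fun x hx y => dg_mul (hdiag x hx) y
  have hinv : ∀ x ∈ closure (C : Set (U n)), dg P x i * dg P x⁻¹ i = 1 := by
    intro x hx
    rw [← hmul x hx, mul_inv_cancel, dg_one]
  have hnorm : ∀ x ∈ closure (C : Set (U n)), ‖dg P x i‖ = 1 := by
    intro x hx
    have h1 := hinv x hx
    rw [dg_inv] at h1
    have h2 := congrArg norm h1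
    rw [norm_mul, norm_star, norm_one] at h2
    nlinarith [norm_nonneg (dg P x i)]
  have hCK : ∀ x ∈ C, x ∈ closure (C : Set (U n)) := fun x hx => subset_closure hx
  rw [← closure_subset_iff_isClosed]
  intro x hx
  -- Step 1
  obtain ⟨δ, hδ, H⟩ := hO univ univ_mem
  have hN : ∀ᶠ y in 𝓝 x, ‖dg P (x * y⁻¹) i - 1‖ < δ := by
    have h1 : Continuous (fun y : U n => ‖dg P (x * y⁻¹) i - 1‖) := by
      have h2 : Continuous (fun y : U n => x * y⁻¹) := by fun_prop
      exact ((hc.comp h2).sub continuous_const).norm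
    have h2 := h1.tendsto x
    rw [mul_inv_cancel, dg_one, sub_self, norm_zero] at h2
    exact h2.eventually (gt_mem_nhds hδ)
  obtain ⟨c, hcN, hcC⟩ := mem_closure_iff_nhds.1 hx _ hN
  have hxc : x * c⁻¹ ∈ closure (C : Set (U n)) := by
    have : x * c⁻¹ ∈ C.topologicalClosure :=
      C.topologicalClosure.mul_mem hx (subset_closure (C.inv_mem hcC))
    exact this
  obtain ⟨c', hc'C, -, e⟩ := H (dg P (x * c⁻¹) i) (hnorm _ hxc) hcN
  have hy : x * c⁻¹ * c'⁻¹ ∈ closure (C : Set (U n)) := by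
    have : x * c⁻¹ * c'⁻¹ ∈ C.topologicalClosure :=
      C.topologicalClosure.mul_mem hxc (subset_closure (C.inv_mem hc'C))
    exact this
  have hy1 : dg P (x * c⁻¹ * c'⁻¹) i = 1 := by
    rw [hmul _ hxc, ← e]
    exact hinv c' (hCK c' hc'C)
  suffices hs : x * c⁻¹ * c'⁻¹ ∈ C by
    have h1 : x = x * c⁻¹ * c'⁻¹ * c' * c := by group
    have h2 : x * c⁻¹ * c'⁻¹ * c' * c ∈ C := C.mul_mem (C.mul_mem hs hc'C) hcC
    rw [← h1] at h2
    exact h2
  -- Step 2
  generalize x * c⁻¹ * c'⁻¹ = y at hy hy1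
  apply hcl
  rw [mem_closure_iff_nhds]
  intro V hV
  have h1 : Tendsto (fun p : U n × U n => p.1⁻¹ * p.2) (𝓝 1 ×ˢ 𝓝 y) (𝓝 y) := by
    have h2 : Continuous (fun p : U n × U n => p.1⁻¹ * p.2) := by fun_prop
    have h3 := h2.tendsto (1, y)
    simp only [inv_one, one_mul] at h3
    rwa [nhds_prod_eq] at h3
  have h4 := h1 hV
  rw [mem_map, mem_prod_iff] at h4
  obtain ⟨O, hO1, V', hV', hOV⟩ := h4
  obtain ⟨δ', hδ', H'⟩ := hO O hO1
  have hN' : ∀ᶠ b in 𝓝 y, ‖dg P b i - 1‖ < δ' := by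
    have h2 : Continuous (fun b : U n => ‖dg P b i - 1‖) := (hc.sub continuous_const).norm
    have h3 := h2.tendsto y
    rw [hy1, sub_self, norm_zero] at h3
    exact h3.eventually (gt_mem_nhds hδ')
  obtain ⟨b, ⟨hbV, hbN⟩, hbC⟩ := mem_closure_iff_nhds.1 hy _ (Filter.inter_mem hV' hN')
  obtain ⟨a, haC, haO, e'⟩ := H' (dg P b i) (hnorm b (hCK b hbC)) hbN
  refine ⟨a⁻¹ * b, hOV (Set.mk_mem_prod haO hbV), C.mul_mem (C.inv_mem haC) hbC, ?_⟩
  rw [hmul _ (hCK _ (C.inv_mem haC)), ← e', mul_comm]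
  exact hinv a (hCK a haC)

end Pool.Agent.W414.ZQ
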